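import Mathlib

set_option autoImplicit false

namespace Pool.Agent.Variants.MP_691331_co.MonophonicFails

open SimpleGraph

/-- X is in monophonic position: every induced path between two distinct vertices of X meets X
only in its two ends. -/
def MonoPos {V : Type} (G : SimpleGraph V) (X : Set V) : Prop :=
  ∀ u ∈ X, ∀ v ∈ X, u ≠ v → ∀ p : G.Walk u v, p.IsPath → p.toSubgraph.IsInduced →
    {w | w ∈ p.support} ∩ X = {u, v}

/-- The least number of colours in a colouring all of whose classes are independent sets in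
monophonic position. -/
noncomputable def chiMp {V : Type} (G : SimpleGraph V) : ℕ :=
  sInf {k : ℕ | ∃ c : V → Fin k, ∀ i : Fin k,
    G.IsIndepSet (c ⁻¹' {i}) ∧ MonoPos G (c ⁻¹' {i})}

/-- The subdivided complete graph with one pendant vertex at each branch vertex. -/
def sub (α : Type) : SimpleGraph (α ⊕ Sym2 α) where
  Adj x y := match x, y with
    | Sum.inl a, Sum.inr e => a ∈ e
    | Sum.inr e, Sum.inl a => a ∈ e
    | _, _ => False
  symm := ⟨by rintro (a | a) (b | b) h <;> exact h⟩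
  loopless := ⟨by rintro (a | a) h <;> exact h⟩

variable {α : Type}

@[simp] lemma adj_lr (a : α) (e : Sym2 α) : (sub α).Adj (.inl a) (.inr e) ↔ a ∈ e := Iff.rfl
@[simp] lemma adj_rl (a : α) (e : Sym2 α) : (sub α).Adj (.inr e) (.inl a) ↔ a ∈ e := Iff.rfl
@[simp] lemma adj_ll (a b : α) : ¬ (sub α).Adj (.inl a) (.inl b) := fun h => h
@[simp] lemma adj_rr (a b : Sym2 α) : ¬ (sub α).Adj (.inr a) (.inr b) := fun h => h

lemma use {V : Type} {G : SimpleGraph V} {X : Set V} (h : MonoPos G X) {u v w : V}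
    (hu : u ∈ X) (hv : v ∈ X) (hw : w ∈ X) (huv : u ≠ v) (hwu : w ≠ u) (hwv : w ≠ v)
    (p : G.Walk u v) (hp : p.IsPath) (hc : p.IsChordless) (hwp : w ∈ p.support) : False := by
  have := h u hu v hv huv p hp (Walk.isInduced_toSubgraph.mpr hc)
  have hm : w ∈ ({w | w ∈ p.support} ∩ X : Set V) := ⟨hwp, hw⟩
  rw [this] at hm
  rcases hm with h | h
  · exact hwu h
  · exact hwv h

lemma a1 (a b : α) : (sub α).Adj (.inl a) (.inr s(a, b)) := by simp
lemma a2 (a b : α) : (sub α).Adj (.inr s(a, b)) (.inl b) := by simp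

section cases
variable {X : Set (α ⊕ Sym2 α)} (h : MonoPos (sub α) X)
include h

lemma c_vvv {a b c : α} (ha : .inl a ∈ X) (hb : .inl b ∈ X) (hc : .inl c ∈ X)
    (h1 : a ≠ b) (h2 : a ≠ c) (h3 : b ≠ c) : False := by
  refine use h ha hc hb (by simpa) (by simpa using h1.symm) (by simpa)
    (.cons (a1 a b) (.cons (a2 a b) (.cons (a1 b c) (.cons (a2 b c) .nil)))) ?_ ?_ (by simp)
  · simp [Walk.isPath_def]
    grind
  · rw [Walk.isChordless_iff_forall_mem_edges]
    simp [or_imp, forall_and]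
    grind

lemma c_vev {a b x y : α} (ha : .inl a ∈ X) (hb : .inl b ∈ X) (he : .inr s(x, y) ∈ X)
    (h1 : a ≠ b) (h2 : a ≠ x) (h3 : a ≠ y) (h4 : b ≠ x) (h5 : b ≠ y) (h6 : x ≠ y) : False := by
  refine use h ha hb he (by simpa) (by simp) (by simp)
    (.cons (a1 a x) (.cons (a2 a x) (.cons (a1 x y) (.cons (a2 x y)
      (.cons (a1 y b) (.cons (a2 y b) .nil)))))) ?_ ?_ (by simp)
  · simp [Walk.isPath_def]
    grind
  · rw [Walk.isChordless_iff_forall_mem_edges]
    simp [or_imp, forall_and]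
    grind

lemma c_vee1 {a x y z : α} (ha : .inl a ∈ X) (he : .inr s(y, x) ∈ X) (hf : .inr s(x, z) ∈ X)
    (h1 : a ≠ x) (h2 : a ≠ y) (h3 : a ≠ z) (h4 : x ≠ y) (h5 : x ≠ z) (h6 : y ≠ z) : False := by
  refine use h ha hf he (by simp) (by simp) (by simp; grind)
    (.cons (a1 a y) (.cons (a2 a y) (.cons (a1 y x) (.cons (a2 y x)
      (.cons (a1 x z) .nil))))) ?_ ?_ (by simp)
  · simp [Walk.isPath_def]
    grind
  · rw [Walk.isChordless_iff_forall_mem_edges]
    simp [or_imp, forall_and]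
    grind

lemma c_vee2 {a x y z t : α} (ha : .inl a ∈ X) (he : .inr s(x, y) ∈ X) (hf : .inr s(z, t) ∈ X)
    (h1 : a ≠ x) (h2 : a ≠ y) (h3 : a ≠ z) (h4 : a ≠ t) (h5 : x ≠ y) (h6 : x ≠ z) (h7 : x ≠ t)
    (h8 : y ≠ z) (h9 : y ≠ t) : False := by
  refine use h ha hf he (by simp) (by simp) (by simp; grind)
    (.cons (a1 a x) (.cons (a2 a x) (.cons (a1 x y) (.cons (a2 x y)
      (.cons (a1 y z) (.cons (a2 y z) (.cons (a1 z t) .nil))))))) ?_ ?_ (by simp)
  · simp [Walk.isPath_def]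
    grind
  · rw [Walk.isChordless_iff_forall_mem_edges]
    simp [or_imp, forall_and]
    grind

lemma c_eee1 {w x y z : α} (he : .inr s(w, x) ∈ X) (hf : .inr s(x, y) ∈ X)
    (hg : .inr s(y, z) ∈ X) (h1 : w ≠ x) (h2 : w ≠ y) (h3 : x ≠ y) (h4 : x ≠ z) (h5 : y ≠ z) :
    False := by
  refine use h he hg hf (by simp; grind) (by simp; grind) (by simp; grind)
    (.cons (a2 w x) (.cons (a1 x y) (.cons (a2 x y) (.cons (a1 y z) .nil)))) ?_ ?_ (by simp)
  · simp [Walk.isPath_def]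
    grind
  · rw [Walk.isChordless_iff_forall_mem_edges]
    simp [or_imp, forall_and]
    grind

lemma c_eee2 {w x y z t : α} (he : .inr s(w, x) ∈ X) (hf : .inr s(x, y) ∈ X)
    (hg : .inr s(z, t) ∈ X) (h1 : w ≠ x) (h2 : w ≠ y) (h3 : w ≠ z) (h4 : w ≠ t) (h5 : x ≠ y)
    (h6 : x ≠ z) (h7 : x ≠ t) (h8 : y ≠ z) (h9 : y ≠ t) : False := by
  refine use h he hg hf (by simp; grind) (by simp; grind) (by simp; grind)
    (.cons (a2 w x) (.cons (a1 x y) (.cons (a2 x y) (.cons (a1 y z)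
      (.cons (a2 y z) (.cons (a1 z t) .nil)))))) ?_ ?_ (by simp)
  · simp [Walk.isPath_def]
    grind
  · rw [Walk.isChordless_iff_forall_mem_edges]
    simp [or_imp, forall_and]
    grind

lemma c_eee3 {u w x y z t : α} (he : .inr s(u, w) ∈ X) (hf : .inr s(x, y) ∈ X)
    (hg : .inr s(z, t) ∈ X) (h1 : u ≠ w) (h2 : u ≠ x) (h3 : u ≠ y) (h4 : u ≠ z) (h5 : u ≠ t)
    (h6 : w ≠ x) (h7 : w ≠ y) (h8 : w ≠ z) (h9 : w ≠ t) (h10 : x ≠ y) (h11 : x ≠ z)
    (h12 : x ≠ t) (h13 : y ≠ z) (h14 : y ≠ t) : False := by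
  refine use h he hg hf (by simp; grind) (by simp; grind) (by simp; grind)
    (.cons (a2 u w) (.cons (a1 w x) (.cons (a2 w x) (.cons (a1 x y) (.cons (a2 x y)
      (.cons (a1 y z) (.cons (a2 y z) (.cons (a1 z t) .nil)))))))) ?_ ?_ (by simp)
  · simp [Walk.isPath_def]
    grind
  · rw [Walk.isChordless_iff_forall_mem_edges]
    simp [or_imp, forall_and]
    grind

/-- Two meeting edges and a third edge of a class in monophonic position have a common end. -/
lemma c_meet {e f g : Sym2 α} (he : .inr e ∈ X) (hf : .inr f ∈ X) (hg : .inr g ∈ X)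
    (ne : ¬ e.IsDiag) (nf : ¬ f.IsDiag) (ng : ¬ g.IsDiag) (hef : e ≠ f)
    {x : α} (hxe : x ∈ e) (hxf : x ∈ f) : x ∈ g := by
  by_contra hxg
  obtain ⟨w, rfl⟩ := Sym2.mem_iff_exists.mp hxe
  obtain ⟨y, rfl⟩ := Sym2.mem_iff_exists.mp hxf
  have hwx : x ≠ w := by simpa using ne
  have hxy : x ≠ y := by simpa using nf
  have hwy : w ≠ y := fun hh => hef (by rw [hh])
  by_cases hy : y ∈ g
  · obtain ⟨z, rfl⟩ := Sym2.mem_iff_exists.mp hy
    have hyz : y ≠ z := by simpa using ng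
    have hxz : x ≠ z := fun hh => hxg (by simp [hh])
    exact c_eee1 h (w := w) (x := x) (y := y) (z := z) (by rwa [Sym2.eq_swap]) hf hg
      hwx.symm hwy hxy hxz hyz
  by_cases hw : w ∈ g
  · obtain ⟨z, rfl⟩ := Sym2.mem_iff_exists.mp hw
    have hwz : w ≠ z := by simpa using ng
    have hxz : x ≠ z := fun hh => hxg (by simp [hh])
    exact c_eee1 h (w := y) (x := x) (y := w) (z := z) (by rwa [Sym2.eq_swap]) he hg
      hxy.symm hwy.symm hwx hxz hwz
  induction g using Sym2.ind with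
  | _ z t =>
    simp only [Sym2.mem_iff, not_or] at hxg hy hw
    exact c_eee2 h (w := w) (x := x) (y := y) (z := z) (t := t) (by rwa [Sym2.eq_swap]) hf hg
      hwx.symm hwy hw.1 hw.2 hxy hxg.1 hxg.2 hy.1 hy.2

lemma c_eee {e f g : Sym2 α} (he : .inr e ∈ X) (hf : .inr f ∈ X) (hg : .inr g ∈ X)
    (ne : ¬ e.IsDiag) (nf : ¬ f.IsDiag) (ng : ¬ g.IsDiag) (hef : e ≠ f) (heg : e ≠ g)
    (hfg : f ≠ g) : ∃ x, x ∈ e ∧ x ∈ f := by
  by_contra hno
  by_cases h1 : ∃ x, x ∈ e ∧ x ∈ g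
  · obtain ⟨x, hxe, hxg⟩ := h1
    exact hno ⟨x, hxe, c_meet h he hg hf ne ng nf heg hxe hxg⟩
  by_cases h2 : ∃ x, x ∈ f ∧ x ∈ g
  · obtain ⟨x, hxf, hxg⟩ := h2
    exact hno ⟨x, c_meet h hf hg he nf ng ne hfg hxf hxg, hxf⟩
  induction e using Sym2.ind with
  | _ u w =>
  induction f using Sym2.ind with
  | _ x y =>
  induction g using Sym2.ind with
  | _ z t =>
    simp only [Sym2.mem_iff, not_exists, not_and, not_or, forall_eq_or_imp, forall_eq,
      Sym2.mk_isDiag_iff] at hno h1 h2 ne nf ng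
    exact c_eee3 h he hf hg ne hno.1.1 hno.1.2 h1.1.1 h1.1.2 hno.2.1 hno.2.2 h1.2.1 h1.2.2 nf
      h2.1.1 h2.1.2 h2.2.1 h2.2.2

lemma c_vee {a : α} {e f : Sym2 α} (ha : .inl a ∈ X) (he : .inr e ∈ X) (hf : .inr f ∈ X)
    (ne : ¬ e.IsDiag) (nf : ¬ f.IsDiag) (hef : e ≠ f) (hae : a ∉ e) (haf : a ∉ f) : False := by
  by_cases h1 : ∃ x, x ∈ e ∧ x ∈ f
  · obtain ⟨x, hxe, hxf⟩ := h1
    obtain ⟨y, rfl⟩ := Sym2.mem_iff_exists.mp hxe
    obtain ⟨z, rfl⟩ := Sym2.mem_iff_exists.mp hxf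
    simp only [Sym2.mem_iff, not_or, Sym2.mk_isDiag_iff] at ne nf hae haf
    exact c_vee1 h (a := a) (x := x) (y := y) (z := z) ha (by rwa [Sym2.eq_swap]) hf
      hae.1 hae.2 haf.2 ne nf (fun hh => hef (by rw [hh]))
  induction e using Sym2.ind with
  | _ x y =>
  induction f using Sym2.ind with
  | _ z t =>
    simp only [Sym2.mem_iff, not_exists, not_and, not_or, forall_eq_or_imp, forall_eq,
      Sym2.mk_isDiag_iff] at h1 ne nf hae haf
    exact c_vee2 h ha he hf hae.1 hae.2 haf.1 haf.2 ne h1.1.1 h1.1.2 h1.2.1 h1.2.2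

lemma c_vve {a b : α} {e : Sym2 α} (ha : .inl a ∈ X) (hb : .inl b ∈ X) (he : .inr e ∈ X)
    (ne : ¬ e.IsDiag) (hab : a ≠ b) (hae : a ∉ e) (hbe : b ∉ e) : False := by
  induction e using Sym2.ind with
  | _ x y =>
    simp only [Sym2.mem_iff, not_or, Sym2.mk_isDiag_iff] at ne hae hbe
    exact c_vev h ha hb he hab hae.1 hae.2 hbe.1 hbe.2 ne

end cases

/-- The vertices that are not pendant. -/
def ND : α ⊕ Sym2 α → Prop
  | Sum.inl _ => True
  | Sum.inr e => ¬ e.IsDiag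

lemma no_vertex {X : Set (α ⊕ Sym2 α)} (hi : (sub α).IsIndepSet X) (h : MonoPos (sub α) X)
    {a : α} {q r : α ⊕ Sym2 α} (ha : .inl a ∈ X) (hq : q ∈ X) (hr : r ∈ X) (nq : ND q)
    (nr : ND r) (h1 : .inl a ≠ q) (h2 : .inl a ≠ r) (h3 : q ≠ r) : False := by
  have key : ∀ (b : α) (e : Sym2 α), .inl b ∈ X → .inr e ∈ X → b ∉ e :=
    fun b e hb he => hi hb he (by simp)
  rcases q with b | e <;> rcases r with c | f
  · exact c_vvv h ha hq hr (by simpa using h1) (by simpa using h2) (by simpa using h3)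
  · exact c_vve h ha hq hr nr (by simpa using h1) (key _ _ ha hr) (key _ _ hq hr)
  · exact c_vve h ha hr hq nq (by simpa using h2) (key _ _ ha hq) (key _ _ hr hq)
  · exact c_vee h ha hq hr nq nr (by simpa using h3) (key _ _ ha hq) (key _ _ ha hr)

/-- A class with three non-pendant vertices has a centre. -/
lemma centre {X : Set (α ⊕ Sym2 α)} (hi : (sub α).IsIndepSet X) (h : MonoPos (sub α) X)
    {p q r : α ⊕ Sym2 α} (hp : p ∈ X) (hq : q ∈ X) (hr : r ∈ X) (np : ND p) (nq : ND q)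
    (nr : ND r) (h1 : p ≠ q) (h2 : p ≠ r) (h3 : q ≠ r) :
    ∃ z : α, ∀ x ∈ X, ND x → ∃ e, x = .inr e ∧ z ∈ e := by
  rcases p with a | e
  · exact (no_vertex hi h hp hq hr nq nr h1 h2 h3).elim
  rcases q with a | f
  · exact (no_vertex hi h hq hp hr np nr h1.symm h3 h2).elim
  rcases r with a | g
  · exact (no_vertex hi h hr hp hq np nq h2.symm h3.symm h1).elim
  have hef : e ≠ f := by simpa using h1
  obtain ⟨z, hze, hzf⟩ := c_eee h hp hq hr np nq nr hef (by simpa using h2) (by simpa using h3)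
  refine ⟨z, fun x hx nx => ?_⟩
  rcases x with a | g'
  · exact (no_vertex hi h hx hp hq np nq (by simp) (by simp) h1).elim
  · exact ⟨g', rfl, c_meet h hp hq hx np nq nx hef hze hzf⟩

lemma exists_colouring {V : Type} [Fintype V] (G : SimpleGraph V) :
    ∃ c : V → Fin (chiMp G), ∀ i, G.IsIndepSet (c ⁻¹' {i}) ∧ MonoPos G (c ⁻¹' {i}) := by
  have hne : {k : ℕ | ∃ c : V → Fin k, ∀ i : Fin k,
      G.IsIndepSet (c ⁻¹' {i}) ∧ MonoPos G (c ⁻¹' {i})}.Nonempty := by
    refine ⟨Fintype.card V, Fintype.equivFin V, fun i => ⟨?_, ?_⟩⟩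
    · intro u hu v hv huv
      exact absurd ((Fintype.equivFin V).injective (hu.trans hv.symm)) huv
    · intro u hu v hv huv
      exact absurd ((Fintype.equivFin V).injective (hu.trans hv.symm)) huv
  exact Nat.sInf_mem hne

lemma lower_compl (s : ℕ) : Fintype.card (Sym2 (Fin s)) ≤ chiMp (sub (Fin s))ᶜ := by
  obtain ⟨c, hc⟩ := exists_colouring (sub (Fin s))ᶜ
  have hinj : Function.Injective (fun e : Sym2 (Fin s) => c (.inr e)) := by
    intro e f hef
    by_contra hne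
    have hne' : (Sum.inr e : Fin s ⊕ Sym2 (Fin s)) ≠ .inr f := by simpa using hne
    exact (hc (c (.inr f))).1 (x := .inr e) hef (y := .inr f) rfl hne'
      ((compl_adj _ _ _).mpr ⟨hne', adj_rr _ _⟩)
  simpa using Fintype.card_le_of_injective _ hinj

lemma lower_sub (s : ℕ) : 3 * s ≤ 2 * chiMp (sub (Fin s)) + 3 := by
  classical
  have hex := exists_colouring (sub (Fin s))
  generalize chiMp (sub (Fin s)) = m at hex ⊢
  obtain ⟨c, hc⟩ := hex
  let big : Finset (Fin m) := Finset.univ.filter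
    (fun i => ∃ z : Fin s, ∀ x ∈ c ⁻¹' {i}, ND x → ∃ e, x = .inr e ∧ z ∈ e)
  have hbig : ∀ i ∈ big, ∃ z : Fin s, ∀ x ∈ c ⁻¹' {i}, ND x → ∃ e, x = .inr e ∧ z ∈ e :=
    fun i hi => (Finset.mem_filter.mp hi).2
  choose ctr hctr using hbig
  let C : Finset (Fin s) := big.attach.image (fun i => ctr i.1 i.2)
  have hC : C.card ≤ big.card := by
    simpa using Finset.card_image_le (s := big.attach) (f := fun i => ctr i.1 i.2)
  let D : Finset (Fin s) := Cᶜ
  have hD : D.card + C.card = s := by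
    have := Finset.card_compl_add_card C
    rwa [Fintype.card_fin] at this
  let E : Finset (Sym2 (Fin s)) := D.offDiag.image Sym2.mk.uncurry
  have hE : E.card = D.card.choose 2 := Sym2.card_image_offDiag D
  let T : Finset (Fin s ⊕ Sym2 (Fin s)) := (Finset.univ : Finset (Fin s)).disjSum E
  have hT : T.card = s + E.card := by simp [T]
  have hTnd : ∀ x ∈ T, ND x := by
    rintro (a | e) hx
    · trivial
    · simp only [T, Finset.inr_mem_disjSum, E, Finset.mem_image, Finset.mem_offDiag] at hx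
      obtain ⟨⟨a, b⟩, ⟨-, -, hab⟩, rfl⟩ := hx
      simpa [ND] using hab
  have hTc : ∀ x ∈ T, c x ∈ bigᶜ := by
    intro x hx
    rw [Finset.mem_compl]
    intro hb
    obtain ⟨e, rfl, hz⟩ := hctr _ hb x rfl (hTnd x hx)
    simp only [T, Finset.inr_mem_disjSum, E, Finset.mem_image, Finset.mem_offDiag] at hx
    obtain ⟨⟨a, b⟩, ⟨ha, hb', -⟩, rfl⟩ := hx
    have hmem : ctr _ hb ∈ C := Finset.mem_image.mpr ⟨⟨_, hb⟩, Finset.mem_attach _ _, rfl⟩
    simp only [Function.uncurry, Sym2.mem_iff] at hz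
    rcases hz with hz | hz
    · exact (Finset.mem_compl.mp ha) (hz ▸ hmem)
    · exact (Finset.mem_compl.mp hb') (hz ▸ hmem)
  have hfib : ∀ i ∈ bigᶜ, (T.filter (fun x => c x = i)).card ≤ 2 := by
    intro i hi
    by_contra hlt
    obtain ⟨p, q, r, hp, hq, hr, h1, h2, h3⟩ := Finset.two_lt_card_iff.mp (not_le.mp hlt)
    simp only [Finset.mem_filter] at hp hq hr
    exact (Finset.mem_compl.mp hi) (Finset.mem_filter.mpr ⟨Finset.mem_univ _,
      centre (hc i).1 (hc i).2 hp.2 hq.2 hr.2 (hTnd _ hp.1) (hTnd _ hq.1) (hTnd _ hr.1)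
        h1 h2 h3⟩)
  have hcount : T.card ≤ 2 * (bigᶜ).card :=
    Finset.card_le_mul_card_image_of_maps_to hTc 2 hfib
  have hb : (bigᶜ).card + big.card = m := by
    simp
  have hch : 2 * D.card ≤ D.card.choose 2 + 3 := by
    generalize D.card = j
    rw [Nat.choose_two_right]
    rcases j with _ | _ | _ | _ | j
    · simp
    · simp
    · simp
    · simp
    · have : 2 * (2 * (j + 4) - 3) ≤ (j + 4) * (j + 4 - 1) := by
        have e1 : 2 * (j + 4) - 3 = 2 * j + 5 := by omega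
        have e2 : j + 4 - 1 = j + 3 := by omega
        rw [e1, e2]
        nlinarith
      have e3 : j + 1 + 1 + 1 + 1 = j + 4 := by ring
      rw [e3]
      omega
  omega

theorem result (k : ℕ) :
    ∃ (V : Type) (_ : Fintype V) (G : SimpleGraph V),
      Fintype.card V + k ≤ chiMp G + chiMp Gᶜ := by
  refine ⟨Fin (2 * k + 3) ⊕ Sym2 (Fin (2 * k + 3)), inferInstance, sub _, ?_⟩
  have h1 := lower_compl (2 * k + 3)
  have h2 := lower_sub (2 * k + 3)
  rw [Fintype.card_sum, Fintype.card_fin]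
  omega

end Pool.Agent.Variants.MP_691331_co.MonophonicFails
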